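import Pool.Agent.Q170.QGraph

/-!
# MP_1debac_an, Q1: an infinite proper hot spot set under delta-conditions
-/

open Set Real Pool.Agent.Q170.QGraph

namespace Pool.Agent.Results.MP_1debac_an.InfiniteProperHotSet

/-- `lam` is the second eigenvalue: there is exactly one eigenvalue below it (the first eigenvalue
is simple, since the graph is connected). -/
def IsLam2 (G : MGraph) (α : G.V → ℝ) (lam : ℝ) : Prop :=
  IsEigenvalue G α lam ∧ ∃ lam1 < lam, IsEigenvalue G α lam1 ∧
    ∀ ν, IsEigenvalue G α ν → ν = lam1 ∨ lam ≤ ν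

/-- The set `M` of the points at which some second eigenfunction attains its global maximum or its
global minimum. -/
def hot (G : MGraph) (α : G.V → ℝ) : Set (Pt G) :=
  {p | ∃ lam f, IsLam2 G α lam ∧ IsEig G α lam f ∧ ((∀ q, f q ≤ f p) ∨ ∀ q, f p ≤ f q)}

/-- The path with two edges of length one. -/
abbrev P : MGraph where
  V := Fin 3
  E := Fin 2
  fV := inferInstance
  fE := inferInstance
  dV := inferInstance
  nE := ⟨0⟩
  src := ![0, 1]
  tgt := ![1, 2]
  len _ := 1
  len_pos _ := one_pos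
  conn := by
    set R := fun a b : Fin 3 => ∃ e : Fin 2, (![0, 1] : Fin 2 → Fin 3) e = a ∧
      (![1, 2] : Fin 2 → Fin 3) e = b
    have h1 : Relation.EqvGen R 0 1 := Relation.EqvGen.rel _ _ ⟨0, rfl, rfl⟩
    have h2 : Relation.EqvGen R 1 2 := Relation.EqvGen.rel _ _ ⟨1, rfl, rfl⟩
    have h3 : ∀ i : Fin 3, Relation.EqvGen R 0 i := by
      intro i
      fin_cases i
      · exact Relation.EqvGen.refl _
      · exact h1
      · exact h1.trans _ _ _ h2
    intro u v
    exact (h3 u).symm.trans _ _ _ (h3 v)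

/-- The strengths. -/
def α : P.V → ℝ := ![-2, -2, 0]

theorem const_of {u : ℝ → ℝ} (hu : ∀ x ∈ Icc (0:ℝ) 1, HasDerivWithinAt u 0 (Icc 0 1) x) :
    ∀ x ∈ Icc (0:ℝ) 1, u x = u 0 := by
  intro x hx
  have hcv : ContinuousOn u (Icc 0 1) := fun y hy => (hu y hy).continuousWithinAt
  refine constant_of_has_deriv_right_zero hcv ?_ x hx
  intro y hy
  exact (hu y ⟨hy.1, hy.2.le⟩).mono_of_mem_nhdsWithin (Icc_mem_nhdsGE_of_mem hy)

/-- Solutions of `f'' = k² f` on the unit interval. -/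
theorem ode_hyp {k : ℝ} (hk : k ≠ 0) {f g : ℝ → ℝ}
    (hf : ∀ x ∈ Icc (0:ℝ) 1, HasDerivWithinAt f (g x) (Icc 0 1) x)
    (hg : ∀ x ∈ Icc (0:ℝ) 1, HasDerivWithinAt g (k ^ 2 * f x) (Icc 0 1) x) :
    ∀ x ∈ Icc (0:ℝ) 1, f x = f 0 * cosh (k * x) + g 0 / k * sinh (k * x) ∧
      g x = k * f 0 * sinh (k * x) + g 0 * cosh (k * x) := by
  have hc : ∀ x, HasDerivAt (fun y => cosh (k * y)) (sinh (k * x) * k) x := by
    intro x
    have := (Real.hasDerivAt_cosh (k * x)).comp x ((hasDerivAt_id x).const_mul k)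
    exact this.congr_deriv (by simp)
  have hs : ∀ x, HasDerivAt (fun y => sinh (k * y)) (cosh (k * x) * k) x := by
    intro x
    have := (Real.hasDerivAt_sinh (k * x)).comp x ((hasDerivAt_id x).const_mul k)
    exact this.congr_deriv (by simp)
  have hA : ∀ x ∈ Icc (0:ℝ) 1, f x * cosh (k * x) - g x / k * sinh (k * x) = f 0 := by
    intro x hx
    have := const_of (u := fun y => f y * cosh (k * y) - g y / k * sinh (k * y)) (by
        intro y hy
        have h1 := ((hf y hy).mul (hc y).hasDerivWithinAt).sub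
          (((hg y hy).div_const k).mul (hs y).hasDerivWithinAt)
        refine h1.congr_deriv ?_
        field_simp
        ring) x hx
    simpa using this
  have hB : ∀ x ∈ Icc (0:ℝ) 1, g x / k * cosh (k * x) - f x * sinh (k * x) = g 0 / k := by
    intro x hx
    have := const_of (u := fun y => g y / k * cosh (k * y) - f y * sinh (k * y)) (by
        intro y hy
        have h1 := (((hg y hy).div_const k).mul (hc y).hasDerivWithinAt).sub
          ((hf y hy).mul (hs y).hasDerivWithinAt)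
        refine h1.congr_deriv ?_
        field_simp
        ring) x hx
    simpa using this
  intro x hx
  have a := hA x hx
  have b := hB x hx
  have cs := Real.cosh_sq_sub_sinh_sq (k * x)
  have hgk : g x = k * (g x / k) := by field_simp
  have hg0 : g 0 = k * (g 0 / k) := by field_simp
  constructor
  · rw [← a, ← b]
    linear_combination (f x) * (-cs)
  · rw [hg0, hgk, ← a, ← b]
    linear_combination (k * (g x / k)) * (-cs)

theorem sinh_lt_mul_cosh {k : ℝ} (hk : 0 < k) : sinh k < k * cosh k := by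
  obtain ⟨c, hc, hc'⟩ := exists_hasDerivAt_eq_slope (f := Real.sinh) (f' := Real.cosh) hk
    Real.continuous_sinh.continuousOn (fun x _ => Real.hasDerivAt_sinh x)
  rw [Real.sinh_zero, sub_zero, sub_zero, eq_div_iff hk.ne'] at hc'
  rw [← hc', mul_comm]
  exact mul_lt_mul_of_pos_left (Real.cosh_lt_cosh.2 (by
    rw [abs_of_pos hc.1, abs_of_pos hk]; exact hc.2)) hk

theorem exists_root : ∃ k : ℝ, 0 < k ∧ k * sinh k = 2 * cosh k := by
  have hcont : ContinuousOn (fun x : ℝ => x * sinh x - 2 * cosh x) (Icc 0 3) := by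
    apply Continuous.continuousOn
    fun_prop
  have h3 : (0:ℝ) ≤ 3 * sinh 3 - 2 * cosh 3 := by
    rw [Real.sinh_eq, Real.cosh_eq]
    have h1 : (3:ℝ) + 1 ≤ exp 3 := Real.add_one_le_exp 3
    have h2 : exp (-3) ≤ 1 / 2 := by
      rw [Real.exp_neg, inv_le_comm₀ (Real.exp_pos _) (by norm_num)]
      linarith
    linarith
  obtain ⟨k, hk, hk'⟩ := intermediate_value_Icc (by norm_num : (0:ℝ) ≤ 3) hcont
    (show (0:ℝ) ∈ Icc _ _ from ⟨by simp, h3⟩)
  have hk' : k * sinh k - 2 * cosh k = 0 := hk'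
  refine ⟨k, ?_, by linarith⟩
  rcases hk.1.eq_or_lt with h | h
  · exfalso; rw [← h] at hk'; simp at hk'
  · exact h

theorem root_unique {a b : ℝ} (ha : 0 < a) (hb : 0 < b) (h1 : a * sinh a = 2 * cosh a)
    (h2 : b * sinh b = 2 * cosh b) : a = b := by
  have key : ∀ a b : ℝ, 0 < a → a < b → a * sinh a = 2 * cosh a → b * sinh b ≠ 2 * cosh b := by
    intro a b ha hab h1 h2
    have h3 : 0 < sinh (b - a) := Real.sinh_pos_iff.2 (by linarith)
    rw [Real.sinh_sub] at h3
    have h4 : b * (sinh b * cosh a) = a * (cosh b * sinh a) := by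
      linear_combination (cosh a) * h2 - (cosh b) * h1
    have h5 : 0 < cosh b * sinh a := mul_pos (Real.cosh_pos _) (Real.sinh_pos_iff.2 ha)
    nlinarith
  rcases lt_trichotomy a b with h | h | h
  · exact absurd h2 (key a b ha h h1)
  · exact h
  · exact absurd h1 (key b a hb h h2)

/-- The vertex conditions on the path. -/
theorem kir {g : P.E → ℝ → ℝ} {φ : P.V → ℝ}
    (hK : ∀ v, (∑ e, if P.src e = v then g e 0 else 0) -
      (∑ e, if P.tgt e = v then g e (P.len e) else 0) = α v * φ v) :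
    g 0 0 = -2 * φ 0 ∧ g 1 0 - g 0 1 = -2 * φ 1 ∧ g 1 1 = 0 := by
  have h0 := hK 0
  have h1 := hK 1
  have h2 := hK 2
  simp [Fin.sum_univ_two, α] at h0 h1 h2
  exact ⟨by linarith, by linarith, h2⟩

/-- Eigenvalues below zero. -/
theorem neg_eig {k : ℝ} (hk : 0 < k) (h : IsEigenvalue P α (-k ^ 2)) :
    k * sinh k = 2 * cosh k := by
  obtain ⟨f, ⟨p, hp⟩, g, φ, hd, hv, hK⟩ := h
  obtain ⟨k0, k1, k2⟩ := kir hK
  have hsol : ∀ e : Fin 2, ∀ x ∈ Icc (0:ℝ) 1,
      f (pt P e x) = f (pt P e 0) * cosh (k * x) + g e 0 / k * sinh (k * x) ∧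
      g e x = k * f (pt P e 0) * sinh (k * x) + g e 0 * cosh (k * x) := by
    intro e x hx
    exact ode_hyp hk.ne' (f := fun t => f (pt P e t)) (g := g e) (fun y hy => (hd e y hy).1)
      (fun y hy => by have := (hd e y hy).2; rwa [neg_neg] at this) x hx
  have v00 : f (pt P 0 0) = φ 0 := (hv 0).1
  have v01 : f (pt P 0 1) = φ 1 := (hv 0).2
  have v10 : f (pt P 1 0) = φ 1 := (hv 1).1
  have one_mem : (1:ℝ) ∈ Icc (0:ℝ) 1 := ⟨zero_le_one, le_refl _⟩
  obtain ⟨s1, s2⟩ := hsol 0 1 one_mem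
  obtain ⟨-, s4⟩ := hsol 1 1 one_mem
  rw [v00, v01, mul_one, k0] at s1
  rw [v00, mul_one, k0] at s2
  rw [v10, mul_one, k2] at s4
  have hlt := sinh_lt_mul_cosh hk
  have hC : 0 < cosh k := Real.cosh_pos k
  have hb : k * φ 1 = φ 0 * (k * cosh k - 2 * sinh k) := by
    rw [s1]; field_simp; ring
  have hmain : φ 0 * ((sinh k - k * cosh k) * (k * sinh k - 2 * cosh k)) = 0 := by
    have hq : g 1 0 = g 0 1 - 2 * φ 1 := by linarith
    rw [s2] at hq
    rw [hq] at s4
    linear_combination (k / 2) * s4 + (1 / 2) * (k * sinh k - 2 * cosh k) * hb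
  rcases mul_eq_zero.1 hmain with h0 | h0
  · exfalso
    have h1 : φ 1 = 0 := by
      rw [h0, zero_mul] at hb
      rcases mul_eq_zero.1 hb with h | h
      · exact absurd h hk.ne'
      · exact h
    have h2 : g 1 0 = 0 := by
      rw [h1, mul_zero, zero_mul, zero_add] at s4
      rcases mul_eq_zero.1 s4.symm with h | h
      · exact h
      · exact absurd h hC.ne'
    apply hp
    obtain ⟨e, x, hx, hx', rfl⟩ := pt_surj p
    rw [(hsol e x ⟨hx, hx'⟩).1]
    fin_cases e
    · change f (pt P 0 0) * _ + g 0 0 / k * _ = 0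
      rw [v00, k0, h0]; simp
    · change f (pt P 1 0) * _ + g 1 0 / k * _ = 0
      rw [v10, h1, h2]; simp
  · rcases mul_eq_zero.1 h0 with h | h
    · exfalso; linarith
    · linarith

/-- The root gives an eigenvalue. -/
theorem eig_root {k : ℝ} (h : k * sinh k = 2 * cosh k) :
    IsEigenvalue P α (-k ^ 2) := by
  have hC : 0 < cosh k := Real.cosh_pos k
  have hc : ∀ x, HasDerivAt (fun y => cosh (k * (1 - y))) (-(sinh (k * (1 - x)) * k)) x := by
    intro x
    have h1 : HasDerivAt (fun y => k * (1 - y)) (k * (0 - 1)) x :=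
      ((hasDerivAt_const x (1:ℝ)).sub (hasDerivAt_id x)).const_mul k
    have := (Real.hasDerivAt_cosh (k * (1 - x))).comp x h1
    exact this.congr_deriv (by ring)
  have hs : ∀ x, HasDerivAt (fun y => sinh (k * (1 - y))) (-(cosh (k * (1 - x)) * k)) x := by
    intro x
    have h1 : HasDerivAt (fun y => k * (1 - y)) (k * (0 - 1)) x :=
      ((hasDerivAt_const x (1:ℝ)).sub (hasDerivAt_id x)).const_mul k
    have := (Real.hasDerivAt_sinh (k * (1 - x))).comp x h1
    exact this.congr_deriv (by ring)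
  set A : Fin 2 → ℝ := ![1 / cosh k, 1 / cosh k ^ 2] with hA
  set F : P.E → ℝ → ℝ := fun e x => A e * cosh (k * (1 - x)) with hF
  set Fd : P.E → ℝ → ℝ := fun e x => A e * -(sinh (k * (1 - x)) * k) with hFd
  set φ : P.V → ℝ := ![1, 1 / cosh k, 1 / cosh k ^ 2] with hφ
  have h0 : ∀ e, F e 0 = φ (P.src e) := by
    intro e
    fin_cases e
    · change 1 / cosh k * cosh (k * (1 - 0)) = 1
      rw [sub_zero, mul_one, one_div, inv_mul_cancel₀ hC.ne']
    · change 1 / cosh k ^ 2 * cosh (k * (1 - 0)) = 1 / cosh k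
      rw [sub_zero, mul_one]; field_simp
  have h1 : ∀ e, F e (P.len e) = φ (P.tgt e) := by
    intro e
    fin_cases e
    · change 1 / cosh k * cosh (k * (1 - 1)) = 1 / cosh k
      simp
    · change 1 / cosh k ^ 2 * cosh (k * (1 - 1)) = 1 / cosh k ^ 2
      simp
  refine ⟨mkFun P F φ h0 h1, isEig_mk (Fd := Fd) ?_ ?_ ?_ ?_⟩
  · intro e x
    exact (hc x).const_mul (A e)
  · intro e x
    refine (((hs x).mul_const k).neg.const_mul (A e)).congr_deriv ?_
    simp only [hF]; ring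
  · have e1 : sinh k * k = 2 * cosh k := by linarith
    intro v
    fin_cases v
    · simp [Fin.sum_univ_two, α, hFd, hA, hφ]
      rw [e1]; field_simp
    · simp [Fin.sum_univ_two, α, hFd, hA, hφ]
      rw [e1]; field_simp
    · simp [Fin.sum_univ_two, α, hFd, hA, hφ]
  · refine ⟨0, 1, ⟨zero_le_one, le_refl _⟩, ?_⟩
    change 1 / cosh k * cosh (k * (1 - 1)) ≠ 0
    simp [hC.ne']

/-- The eigenfunctions for the eigenvalue zero. -/
theorem zero_eig {f : Pt P → ℝ} (h : IsEig P α 0 f) : ∃ a : ℝ, a ≠ 0 ∧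
    (∀ x ∈ Icc (0:ℝ) 1, f (pt P 0 x) = a * (1 - 2 * x)) ∧
    ∀ x ∈ Icc (0:ℝ) 1, f (pt P 1 x) = -a := by
  obtain ⟨⟨p, hp⟩, g, φ, hd, hv, hK⟩ := h
  obtain ⟨k0, k1, k2⟩ := kir hK
  have hg : ∀ e : Fin 2, ∀ x ∈ Icc (0:ℝ) 1, g e x = g e 0 := by
    intro e
    apply const_of
    intro x hx
    have := (hd e x hx).2
    rwa [neg_zero, zero_mul] at this
  have hf : ∀ e : Fin 2, ∀ x ∈ Icc (0:ℝ) 1, f (pt P e x) = f (pt P e 0) + g e 0 * x := by
    intro e x hx
    have := const_of (u := fun y => f (pt P e y) - g e 0 * y) (by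
      intro y hy
      have h1 := (hd e y hy).1
      rw [hg e y hy] at h1
      refine (h1.sub ((hasDerivAt_id y).const_mul (g e 0)).hasDerivWithinAt).congr_deriv ?_
      simp) x hx
    simp only [mul_zero, sub_zero] at this
    linarith
  have v00 : f (pt P 0 0) = φ 0 := (hv 0).1
  have v01 : f (pt P 0 1) = φ 1 := (hv 0).2
  have v10 : f (pt P 1 0) = φ 1 := (hv 1).1
  have one_mem : (1:ℝ) ∈ Icc (0:ℝ) 1 := ⟨zero_le_one, le_refl _⟩
  have g1 : g 1 0 = 0 := by rw [← hg 1 1 one_mem]; exact k2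
  have b1 : φ 1 = -φ 0 := by
    rw [← v01, hf 0 1 one_mem, v00, k0]; ring
  have f0 : ∀ x ∈ Icc (0:ℝ) 1, f (pt P 0 x) = φ 0 * (1 - 2 * x) := by
    intro x hx; rw [hf 0 x hx, v00, k0]; ring
  have f1 : ∀ x ∈ Icc (0:ℝ) 1, f (pt P 1 x) = -φ 0 := by
    intro x hx; rw [hf 1 x hx, v10, g1, b1]; ring
  refine ⟨φ 0, ?_, f0, f1⟩
  intro h0
  apply hp
  obtain ⟨e, x, hx, hx', rfl⟩ := pt_surj p
  fin_cases e
  · change f (pt P 0 x) = 0
    rw [f0 x ⟨hx, hx'⟩, h0, zero_mul]
  · change f (pt P 1 x) = 0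
    rw [f1 x ⟨hx, hx'⟩, h0, neg_zero]

/-- The eigenfunction for the eigenvalue zero. -/
theorem exists_zero_eig : ∃ f, IsEig P α 0 f := by
  set F : P.E → ℝ → ℝ := ![fun x => 2 * x - 1, fun _ => 1] with hF
  set Fd : P.E → ℝ → ℝ := ![fun _ => 2, fun _ => 0] with hFd
  set φ : P.V → ℝ := ![-1, 1, 1] with hφ
  have h0 : ∀ e, F e 0 = φ (P.src e) := by
    intro e
    fin_cases e
    · change (2:ℝ) * 0 - 1 = -1; norm_num
    · change (1:ℝ) = 1; rfl
  have h1 : ∀ e, F e (P.len e) = φ (P.tgt e) := by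
    intro e
    fin_cases e
    · change (2:ℝ) * 1 - 1 = 1; norm_num
    · change (1:ℝ) = 1; rfl
  refine ⟨mkFun P F φ h0 h1, isEig_mk (Fd := Fd) ?_ ?_ ?_ ?_⟩
  · intro e x
    fin_cases e
    · change HasDerivAt (fun x : ℝ => 2 * x - 1) 2 x
      exact (((hasDerivAt_id x).const_mul 2).sub_const 1).congr_deriv (by simp)
    · exact hasDerivAt_const x 1
  · intro e x
    rw [neg_zero, zero_mul]
    fin_cases e
    · exact hasDerivAt_const x 2
    · exact hasDerivAt_const x 0
  · intro v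
    fin_cases v
    · simp [Fin.sum_univ_two, α, hFd, hφ]
    · simp [Fin.sum_univ_two, α, hFd, hφ]
    · simp [Fin.sum_univ_two, α, hFd, hφ]
  · exact ⟨1, 0, ⟨le_refl _, zero_le_one⟩, one_ne_zero⟩

theorem lam2 : IsLam2 P α 0 := by
  refine ⟨exists_zero_eig, ?_⟩
  obtain ⟨k, hk, hk'⟩ := exists_root
  refine ⟨-k ^ 2, by nlinarith, eig_root hk', ?_⟩
  intro ν hν
  rcases le_or_gt 0 ν with h | h
  · exact Or.inr h
  · left
    have h1 : ν = -√(-ν) ^ 2 := by rw [Real.sq_sqrt (by linarith)]; ring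
    rw [h1] at hν
    have h2 : 0 < √(-ν) := Real.sqrt_pos.2 (by linarith)
    rw [h1, root_unique h2 hk (neg_eig h2 hν) hk']

theorem lam2_unique {lam : ℝ} (h : IsLam2 P α lam) : lam = 0 := by
  obtain ⟨h1, l1, hl1, he1, hall⟩ := h
  obtain ⟨h1', l1', hl1', he1', hall'⟩ := lam2
  rcases hall' lam h1 with h | h
  · -- lam is the first eigenvalue of lam2, then l1 < lam is below
    rcases hall' l1 he1 with h' | h'
    · linarith
    · linarith
  · rcases hall 0 h1' with h' | h'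
    · rcases hall l1' he1' with h'' | h'' <;> linarith
    · exact le_antisymm h' h

/-- **MP_1debac_an, Q1**: yes.  There are a compact graph and strengths `α`, not all zero, such that
`M` is infinite and different from the whole graph. -/
theorem result : ∃ (G : MGraph) (α : G.V → ℝ), (∃ v, α v ≠ 0) ∧ (hot G α).Infinite ∧
    hot G α ≠ univ := by
  refine ⟨P, α, ⟨0, by simp [α]⟩, ?_, ?_⟩
  · obtain ⟨f, hf⟩ := exists_zero_eig
    obtain ⟨a, ha, h0, h1⟩ := zero_eig hf
    apply Set.infinite_of_injOn_mapsTo (f := fun t => pt P 1 t) (s := Ioo (0:ℝ) 1)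
    · intro t ht t' ht' h
      have h : pt P 1 t = pt P 1 t' := h
      rw [pt_eq_iff ⟨ht.1.le, ht.2.le⟩ ⟨ht'.1.le, ht'.2.le⟩] at h
      rcases h with ⟨-, h⟩ | ⟨v, h, -⟩
      · exact h
      · rcases h with ⟨h, -⟩ | ⟨h, -⟩
        · exfalso; linarith [ht.1]
        · have h : t = 1 := h
          exfalso; linarith [ht.2]
    · intro t ht
      refine ⟨0, f, lam2, hf, ?_⟩
      simp only
      rw [h1 t ⟨ht.1.le, ht.2.le⟩]
      rcases lt_or_gt_of_ne ha with hneg | hpos
      · left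
        intro q
        obtain ⟨e, x, hx, hx', rfl⟩ := pt_surj q
        fin_cases e
        · change f (pt P 0 x) ≤ -a
          have hx' : x ≤ 1 := hx'
          rw [h0 x ⟨hx, hx'⟩]; nlinarith
        · change f (pt P 1 x) ≤ -a
          rw [h1 x ⟨hx, hx'⟩]
      · right
        intro q
        obtain ⟨e, x, hx, hx', rfl⟩ := pt_surj q
        fin_cases e
        · change -a ≤ f (pt P 0 x)
          have hx' : x ≤ 1 := hx'
          rw [h0 x ⟨hx, hx'⟩]; nlinarith
        · change -a ≤ f (pt P 1 x)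
          rw [h1 x ⟨hx, hx'⟩]
    · exact Set.Ioo_infinite (by norm_num)
  · intro hu
    have hmem : pt P 0 (1 / 2) ∈ hot P α := by rw [hu]; exact mem_univ _
    obtain ⟨lam, f, hl, hf, hext⟩ := hmem
    rw [lam2_unique hl] at hf
    obtain ⟨a, ha, h0, h1⟩ := zero_eig hf
    have e1 : f (pt P 0 (1 / 2)) = 0 := by rw [h0 _ ⟨by norm_num, by norm_num⟩]; ring
    have e2 : f (pt P 0 0) = a := by rw [h0 _ ⟨le_refl _, zero_le_one⟩]; ring
    have e3 : f (pt P 1 0) = -a := h1 _ ⟨le_refl _, zero_le_one⟩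
    rcases hext with h | h
    · have := h (pt P 0 0); have := h (pt P 1 0)
      apply ha; linarith
    · have := h (pt P 0 0); have := h (pt P 1 0)
      apply ha; linarith

end Pool.Agent.Results.MP_1debac_an.InfiniteProperHotSet
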